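import Mathlib
import Pool.Agent.W90.ZT.Glob4

/-!
# Splitting fields over `ℚ` of the zeta numerators in a `ℤ_p`-tower of curves

For every `ℤ_p`-tower of curves `X_n` over a finite field of characteristic `p` with finite ramification
locus, the splitting field `ℚ_n` of `P(X_n, s)` over `ℚ` satisfies `[ℚ_n(μ_{p ^ n}) : ℚ_n] ≤ D` with a
constant `D` (stated as a comparison of degrees over `ℚ`); in particular `[ℚ_n : ℚ] ≥ φ(p ^ n) / D`,
so that `[ℚ_n : ℚ] → ∞`.
-/

open PowerSeries

namespace Pool.Agent.Results.MP_dfc37b_nt.GlobalDegreeLinear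

open Pool.Agent.H707R3

open scoped PowerSeries.WithPiTopology in
/-- The zeta function `Z(X, s) = ∏ (1 - s ^ deg x)⁻¹`, product over the closed points `x` of the curve
`X` with function field `K` over `k`, as a formal power series with complex coefficients. -/
noncomputable def zeta (k K : Type) [Field k] [Field K] [Algebra k K] : PowerSeries ℂ :=
  ∏' x : Place k K, (1 - X ^ x.deg)⁻¹

/-- `A` is the multiset of complex reciprocal roots of `P(X, s) = Z(X, s) (1 - s) (1 - q s)`, `q = #k`:
`P(X, s) = ∏ (1 - α s)`, product over `α ∈ A`. -/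
def IsRecipRoots (k K : Type) [Field k] [Field K] [Algebra k K] (A : Multiset ℂ) : Prop :=
  zeta k K * (1 - X) * (1 - C (Nat.card k : ℂ) * X) = (A.map fun α => 1 - C α * X).prod

/-- For every `ℤ_p`-tower there are `D > 0` and `N` such that for `n ≥ N` the zeta function of the
layer `X_n` (the intermediate field `K` with `[K : F] = p ^ n`) has reciprocal roots as above, and the
number field `ℚ_n` they generate satisfies `[ℚ_n(μ_{p ^ n}) : ℚ] ≤ D [ℚ_n : ℚ]` and
`φ(p ^ n) ≤ D [ℚ_n : ℚ]`. -/
theorem result (p : ℕ) [Fact p.Prime] (k F E : Type) [Field k] [Finite k] [CharP k p]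
    [Field F] [Algebra k F] [Field E] [Algebra F E] [Algebra k E] [IsScalarTower k F E]
    (h : IsZpTower k F E p) :
    ∃ D : ℕ, 0 < D ∧ ∃ N : ℕ, ∀ n, N ≤ n →
      ∀ K : IntermediateField F E, Module.finrank F K = p ^ n →
        (∃ A : Multiset ℂ, IsRecipRoots k K A) ∧
          ∀ A : Multiset ℂ, IsRecipRoots k K A →
            FiniteDimensional ℚ (IntermediateField.adjoin ℚ {α : ℂ | α ∈ A}) ∧
            FiniteDimensional ℚ
              (IntermediateField.adjoin ℚ ({α : ℂ | α ∈ A} ∪ {w : ℂ | w ^ p ^ n = 1})) ∧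
            Module.finrank ℚ
                (IntermediateField.adjoin ℚ ({α : ℂ | α ∈ A} ∪ {w : ℂ | w ^ p ^ n = 1})) ≤
              D * Module.finrank ℚ (IntermediateField.adjoin ℚ {α : ℂ | α ∈ A}) ∧
            Nat.totient (p ^ n) ≤
              D * Module.finrank ℚ (IntermediateField.adjoin ℚ {α : ℂ | α ∈ A}) := by
  obtain ⟨D, hD, N, hN⟩ := W90.ZT.global_bdd h
  exact ⟨D, hD, N, fun n hn K hK => ⟨W90.ZT.exists_roots_complex h K n hK,
    fun A hA => hN n hn K hK A hA⟩⟩

end Pool.Agent.Results.MP_dfc37b_nt.GlobalDegreeLinear
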